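import Pool.Agent.H137R3.TB.Descent

/-!
# Dihedral factorisation of twisted Alexander polynomials of two-bridge knots

For every two-bridge knot `K = S(m, q)`, every odd `p` (in particular every odd prime) and every
epimorphism `α` of the knot group onto the dihedral group of order `2 p`, Wada's twisted Alexander
polynomial `T_α(t)` of `K` with respect to the permutation representation of degree `p` satisfies
`(1 - t) T_α(t) = Δ_K(t) f(t) f(-t)` up to a unit, for some `f ∈ ℤ[t, t⁻¹]`.

Idea of the proof.  The automorphism `σ` of the free group exchanging the two meridians sends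
Schubert's relator `r` to a conjugate `g r⁻¹ g⁻¹`.  If `J` is the reflection with
`J α(a) J = α(b)`, Fox calculus gives `J G Z = Z J` for `Z = Φ(∂r/∂a) (Φ(a) - 1)` and `G = Φ(g)`.
As `J G` turns out to be (the matrix of) a reflection, it is conjugate to `J` by a rotation, and so
a rotation multiple `Z'` of `Z` commutes with `J`.  Hence the determinant of `Z'` on the
complement of the constants is `D₊ D₋`, the determinants on the two eigenspaces of `J`.  The
matrix of `y - y⁻¹` intertwines the representation with its twist by the sign and exchanges the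
two eigenspaces, which gives `D₊(t) = D₋(-t)`.  Divisibility and descent arguments in the
factorial rings `ℚ[t, t⁻¹]` and `ℤ[t, t⁻¹]` finish the proof.
-/

namespace Pool.Agent.Results.MP_d521c2_gt.DihedralFactorization

open LaurentPolynomial Pool.Agent.H137R3.TB

variable {p : ℕ}

/-- The subgroup generated by two reflections. -/
def reflSubgroup (i : ZMod p) (D : AddSubgroup (ZMod p)) : Subgroup (DihedralGroup p) where
  carrier := {g | match g with
    | DihedralGroup.r x => x ∈ D
    | DihedralGroup.sr x => x - i ∈ D}
  one_mem' := by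
    show (0 : ZMod p) ∈ D
    exact D.zero_mem
  mul_mem' := by
    intro g h hg hh
    rcases g with x | x <;> rcases h with y | y <;>
      simp only [Set.mem_setOf_eq] at hg hh
    · show x + y ∈ D
      exact D.add_mem hg hh
    · show y - x - i ∈ D
      have : y - x - i = (y - i) - x := by ring
      rw [this]
      exact D.sub_mem hh hg
    · show x + y - i ∈ D
      have : x + y - i = (x - i) + y := by ring
      rw [this]
      exact D.add_mem hg hh
    · show y - x ∈ D
      have : y - x = (y - i) - (x - i) := by ring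
      rw [this]
      exact D.sub_mem hh hg
  inv_mem' := by
    intro g hg
    rcases g with x | x
    · show -x ∈ D
      exact D.neg_mem hg
    · exact hg

theorem exists_isRefl [NeZero p] {m : ℕ} {q : ℤ} (α : knotGroup m q →* DihedralGroup p)
    (hα : Function.Surjective α) :
    ∃ i j : ZMod p, IsRefl (α.comp (PresentedGroup.mk _)) i j ∧ IsUnit (i - j) ∧
      (α.comp (PresentedGroup.mk _)) (relator m q) = 1 := by
  set β : F2 →* DihedralGroup p := α.comp (PresentedGroup.mk _) with hβ
  have hsurj : Function.Surjective β := by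
    rw [hβ, MonoidHom.coe_comp]
    exact hα.comp (PresentedGroup.mk_surjective _)
  have hrel : β (relator m q) = 1 := by
    rw [hβ, MonoidHom.comp_apply]
    have : (PresentedGroup.mk ({relator m q} : Set F2)) (relator m q) = 1 :=
      PresentedGroup.one_of_mem (Set.mem_singleton _)
    rw [this, map_one]
  have hsgn : sgn (β gb) = sgn (β ga) := by
    have h1 := congrArg sgn hrel
    unfold relator at h1
    simp only [map_mul, map_inv, map_one] at h1
    have h2 : sgn (β (schubertWord m q)) * sgn (β ga) * (sgn (β (schubertWord m q)))⁻¹ =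
        sgn (β ga) := by
      rw [mul_comm, inv_mul_cancel_left]
    rw [h2] at h1
    exact (mul_inv_eq_one.mp h1).symm
  have hne : sgn (β ga) ≠ 1 := by
    intro h1
    have h2 : (sgn.comp β) = 1 := by
      apply FreeGroup.ext_hom
      intro l
      fin_cases l
      · exact h1
      · exact hsgn.trans h1
    obtain ⟨u, hu⟩ := hsurj (DihedralGroup.sr 0)
    have h3 := DFunLike.congr_fun h2 u
    rw [MonoidHom.comp_apply, hu] at h3
    simp [sgn] at h3
  obtain ⟨i, hi⟩ : ∃ i, β ga = DihedralGroup.sr i := by
    rcases h : β ga with x | x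
    · rw [h] at hne; simp [sgn] at hne
    · exact ⟨x, rfl⟩
  obtain ⟨j, hj⟩ : ∃ j, β gb = DihedralGroup.sr j := by
    rcases h : β gb with x | x
    · rw [← hsgn, h] at hne; simp [sgn] at hne
    · exact ⟨x, rfl⟩
  refine ⟨i, j, ⟨hi, hj⟩, ?_, hrel⟩
  have hle : ∀ u, β u ∈ reflSubgroup i (AddSubgroup.zmultiples (i - j)) := by
    intro u
    induction u using FreeGroup.induction_on with
    | C1 => rw [map_one]; exact Subgroup.one_mem _
    | of l =>
      fin_cases l
      · have : β (FreeGroup.of 0) = DihedralGroup.sr i := hi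
        simp only [Fin.zero_eta]
        rw [this]
        show i - i ∈ AddSubgroup.zmultiples (i - j)
        rw [sub_self]
        exact AddSubgroup.zero_mem _
      · have : β (FreeGroup.of 1) = DihedralGroup.sr j := hj
        simp only [Fin.mk_one]
        rw [this]
        show j - i ∈ AddSubgroup.zmultiples (i - j)
        have h5 : j - i = -(i - j) := by ring
        rw [h5]
        exact neg_mem (AddSubgroup.mem_zmultiples (i - j))
    | inv_of l hl => rw [map_inv]; exact Subgroup.inv_mem _ hl
    | mul x y hx hy => rw [map_mul]; exact Subgroup.mul_mem _ hx hy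
  obtain ⟨u, hu⟩ := hsurj (DihedralGroup.r 1)
  have h1 := hle u
  rw [hu] at h1
  have h2 : (1 : ZMod p) ∈ AddSubgroup.zmultiples (i - j) := h1
  obtain ⟨k, hk⟩ := AddSubgroup.mem_zmultiples_iff.mp h2
  rw [zsmul_eq_mul] at hk
  exact IsUnit.of_mul_eq_one_right _ hk

/-- **Dihedral factorisation for two-bridge knots.** Let `m` be odd and let `q` be odd and prime to
`m` (Schubert's parameters of the two-bridge knot `S(m, q)`), let `p` be odd, and let `α` be an
epimorphism from the knot group of `S(m, q)` onto the dihedral group of order `2 p`. Let `Δ` be the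
Alexander polynomial. Then, whichever column `g_j` is deleted in the definition of Wada's invariant
`T_α`, the denominator is nonzero and `(1 - t) T_α(t) = u Δ(t) f(t) f(-t)` for some
`f ∈ ℤ[t, t⁻¹]` and some unit `u` of `ℤ[t, t⁻¹]`. -/
theorem result (m : ℕ) (hm : Odd m) (q : ℤ) (hq : Odd q) (hmq : IsCoprime (m : ℤ) q)
    (p : ℕ) [NeZero p] (hp : Odd p) (α : knotGroup m q →* DihedralGroup p)
    (hα : Function.Surjective α) (Δ : ℤ[T;T⁻¹]) (hΔ : IsAlexanderPolynomial m q Δ) (j : Fin 2) :
    wadaDen m q α j ≠ 0 ∧
    ∃ (f : ℤ[T;T⁻¹]) (u : (ℤ[T;T⁻¹])ˣ),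
      algebraMap ℤ[T;T⁻¹] (FractionRing ℤ[T;T⁻¹]) (1 - T 1) * wada m q α j =
        algebraMap ℤ[T;T⁻¹] (FractionRing ℤ[T;T⁻¹])
          ((u : ℤ[T;T⁻¹]) * Δ * (f * substNeg ℤ f)) := by
  have hden : ∀ l, wadaDen m q α l ≠ 0 := fun l => den_ne_zero _ l
  refine ⟨hden j, ?_⟩
  obtain ⟨i₀, j₀, hrefl, hunit, hrel⟩ := exists_isRefl α hα
  obtain ⟨N, hN⟩ := integral_core hp hm hq hmq hrefl hunit hrel
  set β : F2 →* DihedralGroup p := α.comp (PresentedGroup.mk _) with hβ
  -- the fundamental identity
  have hφ : expSum (relator m q) = 1 := by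
    unfold relator
    rw [map_mul, map_mul, map_mul, map_inv, map_inv, expSum_ga, expSum_gb, mul_right_comm,
      mul_inv_cancel_right, mul_inv_cancel]
  have hone : twist β (gr (relator m q)) = 1 := by
    have h1 : twist β (gr (relator m q)) = twistHom β (relator m q) := by
      unfold twist gr
      exact MonoidAlgebra.lift_of _ _
    rw [h1]
    simp only [twistHom, MonoidHom.coe_mk, OneHom.coe_mk]
    rw [hφ, hrel, map_one (permRep p), toAdd_one, T_zero, one_smul]
    exact Matrix.map_one _ (map_zero _) (map_one _)
  have hfund := congrArg (twist β) (fox_fundamental (relator m q))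
  rw [map_add, map_mul, map_mul, map_sub (twist β) (gr (relator m q)), hone, map_one,
    sub_self] at hfund
  have hdet : (twist β (foxDeriv 1 (relator m q))).det * (twist β (gr gb - 1)).det =
      - ((twist β (foxDeriv 0 (relator m q))).det * (twist β (gr ga - 1)).det) := by
    rw [← Matrix.det_mul, ← Matrix.det_mul, eq_neg_of_add_eq_zero_right hfund, Matrix.det_neg,
      ZMod.card, hp.neg_one_pow]
    ring
  -- the two numerators
  have hnum : ∃ s : (ℤ[T;T⁻¹])ˣ, (1 - T 1) * wadaNum m q α j =
      (s : ℤ[T;T⁻¹]) * abel (foxDeriv 0 (relator m q)) * wadaDen m q α j *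
        (N * substNeg ℤ N) := by
    fin_cases j
    · refine ⟨1, ?_⟩
      show (1 - T 1) * (twist β (foxDeriv (1 - 0) (relator m q))).det =
        ((1 : (ℤ[T;T⁻¹])ˣ) : ℤ[T;T⁻¹]) * abel (foxDeriv 0 (relator m q)) *
          (twist β (gr ga - 1)).det * (N * substNeg ℤ N)
      rw [sub_zero]
      have hb : (twist β (gr gb - 1)).det ≠ 0 := hden 1
      apply mul_right_cancel₀ hb
      rw [Units.val_one, one_mul]
      linear_combination (1 - T 1) * hdet + (twist β (gr ga - 1)).det * hN
    · refine ⟨-1, ?_⟩
      show (1 - T 1) * (twist β (foxDeriv (1 - 1) (relator m q))).det =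
        ((-1 : (ℤ[T;T⁻¹])ˣ) : ℤ[T;T⁻¹]) * abel (foxDeriv 0 (relator m q)) *
          (twist β (gr gb - 1)).det * (N * substNeg ℤ N)
      rw [sub_self, Units.val_neg, Units.val_one]
      linear_combination (-1 : ℤ[T;T⁻¹]) * hN
  obtain ⟨s, hs⟩ := hnum
  -- the Alexander polynomial
  have hab : abel (foxDeriv 1 (relator m q)) = - abel (foxDeriv 0 (relator m q)) := by
    have h1 := congrArg abel (fox_fundamental (relator m q))
    have h2 : ∀ u : F2, abel (gr u) = T (expSum u).toAdd := by
      intro u
      unfold abel gr
      exact MonoidAlgebra.lift_of _ _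
    rw [map_add, map_mul, map_mul, map_sub, map_sub, map_sub, h2, h2, h2, hφ, expSum_ga,
      expSum_gb, map_one abel] at h1
    simp only [toAdd_ofAdd, toAdd_one, T_zero, sub_self] at h1
    have h3 : (T 1 - 1 : ℤ[T;T⁻¹]) ≠ 0 := by
      intro h0
      rw [← T_zero] at h0
      have := congrArg (fun f : ℤ[T;T⁻¹] => f.coeff 1) h0
      simp [T_apply, -T_zero] at this
    apply mul_right_cancel₀ h3
    linear_combination h1
  have hspan : Associated Δ (abel (foxDeriv 0 (relator m q))) := by
    rw [← Ideal.span_singleton_eq_span_singleton, hΔ, hab]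
    apply le_antisymm
    · rw [Ideal.span_le]
      rintro x (rfl | rfl)
      · exact Ideal.mem_span_singleton_self _
      · exact neg_mem (Ideal.mem_span_singleton_self _)
    · rw [Ideal.span_le]
      rintro x rfl
      exact Ideal.subset_span (Set.mem_insert _ _)
  obtain ⟨v, hv⟩ := hspan
  refine ⟨N, s * v, ?_⟩
  have hden' : algebraMap ℤ[T;T⁻¹] (FractionRing ℤ[T;T⁻¹]) (wadaDen m q α j) ≠ 0 := by
    intro h0
    exact hden j ((IsFractionRing.to_map_eq_zero_iff).mp h0)
  unfold wada
  rw [mul_div_assoc', div_eq_iff hden', ← map_mul, ← map_mul]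
  congr 1
  rw [hs, ← hv, Units.val_mul]
  ring

end Pool.Agent.Results.MP_d521c2_gt.DihedralFactorization
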